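import Pool.Agent.Lib.MP_8f66f0_al_MixDet.Words
import Pool.Agent.Lib.MP_8f66f0_al_Uni.Change

/-! # Word sums of twisted matrices -/

set_option autoImplicit false
set_option linter.unusedSectionVars false

namespace Pool.Agent.Lib.MP_8f66f0_al_MixDet

open Pool.Agent.Lib.MP_8f66f0_al_FinQ Pool.Agent.Lib.MP_8f66f0_al_Uni
  Pool.Agent.Lib.MP_8f66f0_al_ChernS Pool.Agent.Lib.MP_8f66f0_al_Mixed

variable {ι κ : Type*} [Fintype ι] [DecidableEq ι] [Fintype κ] [DecidableEq κ]

section coeff

variable {G : Type*} [Group G] {O S : Type*} [CommRing O] [CommRing S] (f : O →+* S)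

theorem letter_chg (x : MonoidAlgebra O G) :
    letter S G (MonoidAlgebra.mapRingHom G f x) =
      MonoidAlgebra.mapRingHom (FreeMonoid G) f (letter O G x) := by
  induction x using MonoidAlgebra.induction_linear with
  | zero => simp only [map_zero]
  | add y z hy hz => simp only [map_add, hy, hz]
  | single m r =>
    rw [MonoidAlgebra.mapRingHom_single, letter_single, letter_single,
      MonoidAlgebra.mapRingHom_single]

/-- Change of coefficients in word sums. -/
theorem wsum_chg (B A : Matrix ι ι (MonoidAlgebra O G)) (Q : ℕ) (F : List G → O) :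
    wsum (chgM f B) (chgM f A) Q (fun w => f (F w)) = f (wsum B A Q F) := by
  have h2 : ∀ C : Matrix ι ι (MonoidAlgebra O G), letM (chgM f C) =
      (MonoidAlgebra.mapRingHom (FreeMonoid G) f).mapMatrix (letM C) := by
    intro C
    refine Matrix.ext fun i j => ?_
    exact letter_chg f (C i j)
  have h3 : ∀ x : MonoidAlgebra O (FreeMonoid G),
      lin (fun w : FreeMonoid G => f (F w.toList))
        (MonoidAlgebra.mapRingHom (FreeMonoid G) f x) =
      f (lin (fun w : FreeMonoid G => F w.toList) x) := by
    intro x
    induction x using MonoidAlgebra.induction_linear with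
    | zero => simp only [map_zero]
    | add y z hy hz => simp only [map_add, hy, hz]
    | single m r => rw [MonoidAlgebra.mapRingHom_single, lin_single, lin_single, map_mul]
  unfold wsum
  rw [h2, h2, ← map_mul, ← map_pow, ← h3]
  congr 1
  rw [Matrix.trace, Matrix.trace, map_sum]
  rfl

theorem chS_chg (m : ℕ) (A B : Matrix ι ι (MonoidAlgebra O G)) (b : G → List G → ℤ) :
    chS m (chgM f A) (chgM f B) b = f (chS m A B b) := by
  unfold chS
  rw [← wsum_chg f]
  congr 1
  funext w
  rw [map_intCast]

theorem mixS_chg (k : ℕ) (A B : Matrix ι ι (MonoidAlgebra O G)) (b : G → List G → ℤ) :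
    mixS k (chgM f A) (chgM f B) b = f (mixS k A B b) := by
  unfold mixS
  rw [map_sum]
  refine Finset.sum_congr rfl fun m _ => ?_
  rw [map_mul, map_intCast, chS_chg]

end coeff

section proj

variable {H Γ : Type*} [Group H] [Group Γ] {S : Type*} [CommRing S]

theorem letter_map (ψ : H →* Γ) (x : MonoidAlgebra S H) :
    letter S Γ (MonoidAlgebra.mapDomainRingHom S ψ x) =
      MonoidAlgebra.mapDomainRingHom S (FreeMonoid.map ψ) (letter S H x) := by
  induction x using MonoidAlgebra.induction_linear with
  | zero => simp only [map_zero]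
  | add y z hy hz => simp only [map_add, hy, hz]
  | single m r =>
    rw [MonoidAlgebra.mapDomainRingHom_apply, MonoidAlgebra.mapDomain_single, letter_single,
      letter_single, MonoidAlgebra.mapDomainRingHom_apply, MonoidAlgebra.mapDomain_single,
      FreeMonoid.map_of]

theorem lin_map (ψ : H →* Γ) (F : List Γ → S) (x : MonoidAlgebra S (FreeMonoid H)) :
    lin (fun w : FreeMonoid Γ => F w.toList)
        (MonoidAlgebra.mapDomainRingHom S (FreeMonoid.map ψ) x) =
      lin (fun w : FreeMonoid H => F (w.toList.map ψ)) x := by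
  induction x using MonoidAlgebra.induction_linear with
  | zero => simp only [map_zero]
  | add y z hy hz => simp only [map_add, hy, hz]
  | single a r =>
    rw [MonoidAlgebra.mapDomainRingHom_apply, MonoidAlgebra.mapDomain_single, lin_single,
      lin_single, FreeMonoid.toList_map]

theorem wsum_mapMatS (ψ : H →* Γ) (B A : Matrix ι ι (MonoidAlgebra S H)) (Q : ℕ)
    (F : List Γ → S) :
    wsum (mapMatS S ψ B) (mapMatS S ψ A) Q F = wsum B A Q (fun w => F (w.map ψ)) := by
  have h2 : ∀ C : Matrix ι ι (MonoidAlgebra S H), letM (mapMatS S ψ C) =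
      (MonoidAlgebra.mapDomainRingHom S (FreeMonoid.map ψ)).mapMatrix (letM C) := by
    intro C
    refine Matrix.ext fun i j => ?_
    exact letter_map ψ (C i j)
  unfold wsum
  rw [h2, h2, ← map_mul, ← map_pow, ← lin_map]
  congr 1
  rw [Matrix.trace, Matrix.trace, map_sum]
  rfl

theorem verts_map (ψ : H →* Γ) (w : List H) : verts (w.map ψ) = (verts w).map ψ := by
  unfold verts
  rw [List.length_map, List.map_map]
  refine List.map_congr_left fun j _ => ?_
  rw [Function.comp_apply, map_list_prod, List.map_take]

end proj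

section twist

variable {H : Type*} [Group H] {S : Type*} [CommRing S] (ρ : H →* Matrix κ κ S)

/-- Words with their values in the representation. -/
noncomputable def wordRep : FreeMonoid H →* Matrix κ κ (MonoidAlgebra S (FreeMonoid H)) :=
  FreeMonoid.lift fun h => (ρ h).map (MonoidAlgebra.single (FreeMonoid.of h))

theorem wordRep_apply (w : FreeMonoid H) (i j : κ) :
    wordRep ρ w i j = MonoidAlgebra.single w (ρ w.toList.prod i j) := by
  induction w using FreeMonoid.recOn generalizing i j with
  | one =>
    rw [map_one, FreeMonoid.toList_one, List.prod_nil, map_one, Matrix.one_apply,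
      Matrix.one_apply]
    split_ifs
    · rfl
    · rw [MonoidAlgebra.single_zero]
  | of_mul x w ih =>
    rw [map_mul, FreeMonoid.toList_mul, FreeMonoid.toList_of, List.singleton_append,
      List.prod_cons, map_mul, Matrix.mul_apply, Matrix.mul_apply]
    have h1 := map_sum (MonoidAlgebra.singleAddHom (R := S) (FreeMonoid.of x * w))
      (fun k => ρ x i k * ρ w.toList.prod k j) Finset.univ
    refine Eq.trans (Finset.sum_congr rfl fun k _ => ?_) h1.symm
    rw [ih, wordRep, FreeMonoid.lift_eval_of, Matrix.map_apply, MonoidAlgebra.single_mul_single]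
    rfl

/-- The ring homomorphism on the word ring. -/
noncomputable def wordHom :
    MonoidAlgebra ℤ (FreeMonoid H) →ₐ[ℤ] Matrix κ κ (MonoidAlgebra S (FreeMonoid H)) :=
  MonoidAlgebra.lift ℤ (Matrix κ κ (MonoidAlgebra S (FreeMonoid H))) (FreeMonoid H) (wordRep ρ)

theorem wordHom_single (w : FreeMonoid H) (m : ℤ) :
    wordHom ρ (MonoidAlgebra.single w m) = m • wordRep ρ w := by
  rw [wordHom, MonoidAlgebra.lift_single]

theorem wordHom_letter (x : MonoidAlgebra ℤ H) (a b : κ) :
    wordHom ρ (letter ℤ H x) a b = letter S H (twHom ρ x a b) := by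
  induction x using MonoidAlgebra.induction_linear with
  | zero => simp
  | add y z hy hz =>
    rw [map_add, map_add, Matrix.add_apply, hy, hz, map_add, Matrix.add_apply, map_add]
  | single g m =>
    rw [letter_single, wordHom_single, twHom_single, Matrix.smul_apply, Matrix.smul_apply,
      map_zsmul, twMon_apply, letter_single, wordRep_apply, FreeMonoid.toList_of,
      List.prod_singleton]

theorem letM_twist (Y : Matrix ι ι (MonoidAlgebra ℤ H)) :
    letM (twist ρ Y) =
      Matrix.compRingEquiv ι κ (MonoidAlgebra S (FreeMonoid H))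
        ((wordHom ρ).toRingHom.mapMatrix (letM Y)) := by
  refine Matrix.ext fun x y => ?_
  exact (wordHom_letter ρ (Y x.1 y.1) x.2 y.2).symm

/-- The trace of a twisted word. -/
theorem lin_trace_wordHom {τ : Type*} (s : Finset τ) (t : τ → S) (F : List H → S)
    (F' : τ → List H → ℤ)
    (hF : ∀ w : List H, (ρ w.prod).trace * F w = ∑ x ∈ s, t x * ((F' x w : ℤ) : S))
    (x : MonoidAlgebra ℤ (FreeMonoid H)) :
    lin (fun w : FreeMonoid H => F w.toList) (wordHom ρ x).trace =
      ∑ y ∈ s, t y * ((lin (fun w : FreeMonoid H => F' y w.toList) x : ℤ) : S) := by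
  induction x using MonoidAlgebra.induction_linear with
  | zero => simp
  | add y z hy hz =>
    rw [map_add, Matrix.trace_add, map_add, hy, hz, ← Finset.sum_add_distrib]
    refine Finset.sum_congr rfl fun u _ => ?_
    rw [map_add, Int.cast_add, mul_add]
  | single w m =>
    rw [wordHom_single, Matrix.trace_smul, map_zsmul, Matrix.trace, map_sum]
    have h1 : ∀ i, lin (fun w : FreeMonoid H => F w.toList) (Matrix.diag (wordRep ρ w) i) =
        ρ w.toList.prod i i * F w.toList := by
      intro i
      rw [Matrix.diag_apply, wordRep_apply, lin_single]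
    rw [Finset.sum_congr rfl fun i _ => h1 i, ← Finset.sum_mul]
    have h2 := hF w.toList
    rw [Matrix.trace] at h2
    simp only [Matrix.diag_apply] at h2
    rw [h2, Finset.smul_sum]
    refine Finset.sum_congr rfl fun u _ => ?_
    rw [lin_single, zsmul_eq_mul, Int.cast_mul]
    ring

/-- Word sums of twisted matrices. -/
theorem wsum_twist {τ : Type*} (s : Finset τ) (t : τ → S) (F : List H → S)
    (F' : τ → List H → ℤ)
    (hF : ∀ w : List H, (ρ w.prod).trace * F w = ∑ x ∈ s, t x * ((F' x w : ℤ) : S))
    (B A : Matrix ι ι (MonoidAlgebra ℤ H)) (Q : ℕ) :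
    wsum (twist ρ B) (twist ρ A) Q F = ∑ x ∈ s, t x * ((wsum B A Q (F' x) : ℤ) : S) := by
  unfold wsum
  rw [letM_twist, letM_twist, ← map_mul, ← map_mul, ← map_pow, ← map_pow]
  set M := (letM B * letM A) ^ Q with hM
  have h1 : Matrix.trace (Matrix.compRingEquiv ι κ (MonoidAlgebra S (FreeMonoid H))
      ((wordHom ρ).toRingHom.mapMatrix M)) = ∑ i, (wordHom ρ (M i i)).trace := by
    rw [Matrix.trace, Fintype.sum_prod_type]
    rfl
  rw [h1, map_sum, Finset.sum_congr rfl fun i _ => lin_trace_wordHom ρ s t F F' hF (M i i),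
    Finset.sum_comm]
  refine Finset.sum_congr rfl fun x _ => ?_
  rw [← Finset.mul_sum, Matrix.trace, map_sum, Int.cast_sum]
  rfl

end twist

end Pool.Agent.Lib.MP_8f66f0_al_MixDet
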