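import Pool.Agent.Lib.MP_8f66f0_al_MixDet.StableG

/-! # The vanishing theorem for the product with a finite group -/

set_option autoImplicit false
set_option linter.unusedSectionVars false

namespace Pool.Agent.Lib.MP_8f66f0_al_MixDet

open Pool.Agent.Lib.MP_8f66f0_al_FinQ Pool.Agent.Lib.MP_8f66f0_al_Uni
  Pool.Agent.Lib.MP_8f66f0_al_ChernS Pool.Agent.Lib.MP_8f66f0_al_Mixed
  Pool.Agent.Lib.MP_8f66f0_al_Stab

variable {Γ Q : Type*} [Group Γ] [Group Q] {n k : ℕ}

open Classical in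
/-- The pull back of a mixed cocycle to the product with `Q`, restricted to a class. -/
noncomputable def prodB (b : Γ → List Γ → ℤ) (c : Γ) (κ : ConjClasses Q) :
    Γ × Q → List (Γ × Q) → ℤ :=
  fun x u => if IsConj c x.1 ∧ ConjClasses.mk x.2 = κ then b x.1 (u.map Prod.fst) else 0

theorem isMixed_prodB {b : Γ → List Γ → ℤ} (hb : IsMixed k b) (c : Γ) (κ : ConjClasses Q) :
    IsMixed k (prodB b c κ) where
  len x u hu := by
    unfold prodB
    rw [hb.len x.1 _ (by rwa [List.length_map]), ite_self]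
  odd x u hu := by
    unfold prodB
    rw [hb.odd x.1 _ (by rwa [List.length_map]), ite_self]
  equivariant y x u := by
    unfold prodB
    have h1 : IsConj c (y * x * y⁻¹).1 ↔ IsConj c x.1 := by
      have h2 : IsConj x.1 (y * x * y⁻¹).1 := isConj_iff.2 ⟨y.1, rfl⟩
      exact ⟨fun h => h.trans h2.symm, fun h => h.trans h2⟩
    have h3 : ConjClasses.mk (y * x * y⁻¹).2 = ConjClasses.mk x.2 :=
      ConjClasses.mk_eq_mk_iff_isConj.2 (isConj_iff.2 ⟨y.2, rfl⟩ : IsConj x.2 (y * x * y⁻¹).2).symm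
    have h4 : (u.map (y * ·)).map Prod.fst = (u.map Prod.fst).map (y.1 * ·) := by
      rw [List.map_map, List.map_map]
      rfl
    have hP : (IsConj c (y * x * y⁻¹).1 ∧ ConjClasses.mk (y * x * y⁻¹).2 = κ) ↔
        (IsConj c x.1 ∧ ConjClasses.mk x.2 = κ) := by rw [h1, h3]
    by_cases h : IsConj c x.1 ∧ ConjClasses.mk x.2 = κ
    · rw [if_pos h, if_pos (hP.2 h), h4]
      exact hb.equivariant y.1 x.1 _
    · rw [if_neg h, if_neg fun h' => h (hP.1 h')]
  alternating x u a a' v := by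
    unfold prodB
    split_ifs
    · rw [List.map_append, List.map_append, List.map_cons, List.map_cons, List.map_cons,
        List.map_cons]
      exact hb.alternating x.1 _ _ _ _
    · rw [neg_zero]
  diag x u a v := by
    unfold prodB
    split_ifs
    · rw [List.map_append, List.map_cons, List.map_cons]
      exact hb.diag x.1 _ _ _
    · rfl
  mixed x a u := by
    unfold prodB
    split_ifs
    · rw [List.map_cons, List.map_cons]
      have h := hb.mixed x.1 a.1 (u.map Prod.fst)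
      rw [List.length_map] at h
      rw [Prod.fst_mul, h]
      congr 1
      refine Finset.sum_congr rfl fun i _ => ?_
      rw [List.eraseIdx_map]
    · simp

theorem prodB_supp (b : Γ → List Γ → ℤ) (c : Γ) (q : Q) (x : Γ × Q) (u : List (Γ × Q))
    (h : ¬ IsConj (c, q) x) : prodB b c (ConjClasses.mk q) x u = 0 := by
  unfold prodB
  rw [if_neg]
  rintro ⟨h1, h2⟩
  apply h
  obtain ⟨g, hg⟩ := isConj_iff.1 h1
  obtain ⟨y, hy⟩ := isConj_iff.1 (ConjClasses.mk_eq_mk_iff_isConj.1 h2).symm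
  exact isConj_iff.2 ⟨(g, y), Prod.ext hg hy⟩

theorem stableRoots_prod [Finite Q] {c : Γ} (hc : StableRoots c) (q : Q) :
    StableRoots ((c, q) : Γ × Q) := by
  have h1 : {p : ℕ | (p.Prime ∧ ∀ v : Γ, IsConj c v → ∀ x : Γ, x ^ p = v ^ p → x = v) ∧
      Nat.card Q < p}.Infinite := by
    intro hfin
    apply hc
    refine (hfin.union (Set.finite_Iic (Nat.card Q))).subset ?_
    intro p hp
    by_cases h : Nat.card Q < p
    · exact Or.inl ⟨hp, h⟩
    · exact Or.inr (not_lt.1 h)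
  refine h1.mono ?_
  rintro p ⟨⟨hp, h⟩, hpQ⟩
  refine ⟨hp, ?_⟩
  rintro ⟨v, q'⟩ hv ⟨x, y⟩ hxy
  obtain ⟨g, hg⟩ := isConj_iff.1 hv
  have hv1 : IsConj c v := isConj_iff.2 ⟨g.1, congrArg Prod.fst hg⟩
  have e1 : x = v := h v hv1 x (congrArg Prod.fst hxy)
  have hcop : (Nat.card Q).Coprime p :=
    (Nat.coprime_of_lt_prime (Nat.card_pos (α := Q)).ne' hpQ hp).symm
  have e2 : y = q' := (powCoprime hcop).injective (congrArg Prod.snd hxy)
  rw [e1, e2]

/-- **Theorem T for the product with a finite group.** -/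
theorem mixedChern_prodB [Finite Q] (U U' : Matrix (Fin n) (Fin n) (MonoidAlgebra ℤ (Γ × Q)))
    (h1 : U * U' = 1) (h2 : U' * U = 1) {b : Γ → List Γ → ℤ} (hb : IsMixed k b) {c : Γ}
    (hc1 : c ≠ 1) (hD : b c [] ≠ 0) (hS : StableRoots c) (hk : 0 < k) (κ : ConjClasses Q) :
    mixedChern k U U' (prodB b c κ) = 0 := by
  obtain ⟨q, rfl⟩ := κ.exists_rep
  refine stable_zeroG U U' h1 h2 hk (isMixed_prodB hb c _) (c, q)
    (fun h => hc1 (congrArg Prod.fst h)) (fun x u hx => prodB_supp b c q x u hx) ?_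
    (stableRoots_prod hS q)
  unfold prodB
  rw [if_pos ⟨IsConj.refl c, rfl⟩]
  exact hD

end Pool.Agent.Lib.MP_8f66f0_al_MixDet
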