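import Pool.Agent.Lib.MP_8f66f0_al_MixDet.ProdQ
import Pool.Agent.Lib.MP_8f66f0_al_MixDet.Bridge
import Pool.Agent.Lib.MP_8f66f0_al_Uni.TauPoly

/-! # Classes with a mixed cocycle are good -/

set_option autoImplicit false
set_option linter.unusedSectionVars false

namespace Pool.Agent.Lib.MP_8f66f0_al_MixDet

open Pool.Agent.Lib.MP_8f66f0_al_FinQ Pool.Agent.Lib.MP_8f66f0_al_Uni
  Pool.Agent.Lib.MP_8f66f0_al_ChernS Pool.Agent.Lib.MP_8f66f0_al_Mixed
  Pool.Agent.Lib.MP_8f66f0_al_Plus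

section pull

variable {Γ Q : Type*} [Group Γ] [Group Q] {S : Type*} [CommRing S] {n l k : ℕ}

/-- The tautological representation of the second factor. -/
noncomputable def tau2 (Γ : Type*) [Group Γ] (l : ℕ) (S : Type*) [CommRing S] :
    Γ × (Matrix (Fin l) (Fin l) S)ˣ →* Matrix (Fin l) (Fin l) S :=
  (Units.coeHom _).comp (MonoidHom.snd Γ _)

/-- The graph of a representation. -/
def graph (β : Γ →* Matrix (Fin l) (Fin l) S) : Γ →* Γ × (Matrix (Fin l) (Fin l) S)ˣ :=
  (MonoidHom.id Γ).prod β.toHomUnits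

theorem twHom_graph (β : Γ →* Matrix (Fin l) (Fin l) S) (x : MonoidAlgebra ℤ Γ) (a b : Fin l) :
    MonoidAlgebra.mapDomainRingHom S (MonoidHom.fst Γ (Matrix (Fin l) (Fin l) S)ˣ)
      (twHom (tau2 Γ l S) (MonoidAlgebra.mapDomainRingHom ℤ (graph β) x) a b) =
      twHom β x a b := by
  induction x using MonoidAlgebra.induction_linear with
  | zero => simp
  | add x y hx hy =>
    rw [map_add, map_add, map_add, Matrix.add_apply, Matrix.add_apply, map_add, hx, hy]
  | single g m =>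
    have h1 : MonoidAlgebra.mapDomainRingHom ℤ (graph β) (MonoidAlgebra.single g m) =
        MonoidAlgebra.single (graph β g) m := MonoidAlgebra.mapDomain_single
    rw [h1, twHom_single, twHom_single, Matrix.smul_apply, Matrix.smul_apply, map_zsmul,
      twMon_apply, twMon_apply, MonoidAlgebra.mapDomainRingHom_apply,
      MonoidAlgebra.mapDomain_single]
    rfl

theorem twist_graph (β : Γ →* Matrix (Fin l) (Fin l) S)
    (Y : Matrix (Fin n) (Fin n) (MonoidAlgebra ℤ Γ)) :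
    mapMatS S (MonoidHom.fst Γ (Matrix (Fin l) (Fin l) S)ˣ)
      (twist (tau2 Γ l S) (mapMatS ℤ (graph β) Y)) = twist β Y := by
  refine Matrix.ext fun x y => ?_
  exact twHom_graph β (Y x.1 y.1) x.2 y.2

/-- The pairing of a twisted matrix over the product with a finite group. -/
theorem mixS_twist [Finite S] (W W' : Matrix (Fin n) (Fin n)
      (MonoidAlgebra ℤ (Γ × (Matrix (Fin l) (Fin l) S)ˣ)))
    (h1 : W * W' = 1) (h2 : W' * W = 1) {b : Γ → List Γ → ℤ} (hb : IsMixed k b) {c : Γ}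
    (hc1 : c ≠ 1) (hD : b c [] ≠ 0) (hS : StableRoots c) (hk : 0 < k)
    (hsupp : ∀ c' u, ¬ IsConj c c' → b c' u = 0) :
    mixS k (mapMatS S (MonoidHom.fst Γ _) (twist (tau2 Γ l S) W))
      (mapMatS S (MonoidHom.fst Γ _) (twist (tau2 Γ l S) W')) b = 0 := by
  classical
  have hfin : Finite (Matrix (Fin l) (Fin l) S)ˣ := inferInstance
  have hfc : Finite (ConjClasses (Matrix (Fin l) (Fin l) S)ˣ) :=
    Finite.of_surjective ConjClasses.mk ConjClasses.mk_surjective
  have : Fintype (ConjClasses (Matrix (Fin l) (Fin l) S)ˣ) := Fintype.ofFinite _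
  -- the trace as a class function
  set t : ConjClasses (Matrix (Fin l) (Fin l) S)ˣ → S :=
    fun κ => Matrix.trace ((κ.out : (Matrix (Fin l) (Fin l) S)ˣ) : Matrix (Fin l) (Fin l) S)
    with ht
  have htr : ∀ q : (Matrix (Fin l) (Fin l) S)ˣ,
      Matrix.trace (q : Matrix (Fin l) (Fin l) S) = t (ConjClasses.mk q) := by
    intro q
    have h3 : ConjClasses.mk (ConjClasses.mk q).out = ConjClasses.mk q :=
      Quotient.out_eq' (ConjClasses.mk q)
    obtain ⟨y, hy⟩ := isConj_iff.1 (ConjClasses.mk_eq_mk_iff_isConj.1 h3)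
    rw [ht]
    beta_reduce
    conv_lhs => rw [← hy]
    rw [Units.val_mul, Units.val_mul, Matrix.trace_mul_comm, ← mul_assoc, ← Units.val_mul,
      inv_mul_cancel, Units.val_one, one_mul]
  have key : ∀ m : ℕ, chS m (mapMatS S (MonoidHom.fst Γ _) (twist (tau2 Γ l S) W))
      (mapMatS S (MonoidHom.fst Γ _) (twist (tau2 Γ l S) W')) b =
      ∑ κ, t κ * ((chern m W W' (prodB b c κ) : ℤ) : S) := by
    intro m
    unfold chS chern
    rw [wsum_mapMatS]
    refine wsum_twist (tau2 Γ l S) Finset.univ t _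
      (fun κ w => prodB b c κ w.prod (verts w)) ?_ W' W (m + 1)
    intro w
    have e1 : (w.map (MonoidHom.fst Γ (Matrix (Fin l) (Fin l) S)ˣ)).prod = w.prod.1 := by
      rw [← map_list_prod]
      rfl
    have e2 : verts (w.map (MonoidHom.fst Γ (Matrix (Fin l) (Fin l) S)ˣ)) =
        (verts w).map Prod.fst := verts_map _ w
    rw [e1, e2]
    have e3 : (tau2 Γ l S w.prod).trace = t (ConjClasses.mk w.prod.2) := htr w.prod.2
    rw [e3, Finset.sum_eq_single (ConjClasses.mk w.prod.2)]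
    · congr 2
      unfold prodB
      by_cases h : IsConj c w.prod.1
      · rw [if_pos ⟨h, rfl⟩]
      · rw [if_neg (fun h' => h h'.1), hsupp _ _ h]
    · intro κ _ hκ
      unfold prodB
      rw [if_neg (fun h' => hκ h'.2.symm), Int.cast_zero, mul_zero]
    · intro h
      exact absurd (Finset.mem_univ _) h
  have h0 : ∀ κ : ConjClasses (Matrix (Fin l) (Fin l) S)ˣ,
      mixedChern k W W' (prodB b c κ) = 0 :=
    fun κ => mixedChern_prodB W W' h1 h2 hb hc1 hD hS hk κ
  unfold mixS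
  simp only [key]
  have h3 : ∑ m ∈ Finset.range k,
      (((m.factorial : ℤ) * ∏ j ∈ Finset.Ico (m + 1) k, (2 * (j : ℤ) + 1) : ℤ) : S) *
        ∑ κ, t κ * ((chern m W W' (prodB b c κ) : ℤ) : S) =
      ∑ κ, t κ * ((mixedChern k W W' (prodB b c κ) : ℤ) : S) := by
    simp only [mixedChern, Int.cast_sum, Int.cast_mul, Finset.mul_sum]
    rw [Finset.sum_comm]
    refine Finset.sum_congr rfl fun κ _ => Finset.sum_congr rfl fun m _ => ?_
    ring
  rw [h3]
  refine Finset.sum_eq_zero fun κ _ => ?_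
  rw [h0, Int.cast_zero, mul_zero]

end pull

section main

variable {Γ : Type*} [Group Γ] {n : ℕ} {A B : Matrix (Fin n) (Fin n) (MonoidAlgebra ℤ Γ)}
  {S : Type*} [CommRing S] [IsDomain S] [CharZero S] [IsNoetherianRing S] {p : ℕ} {c : Γ}

/-- **Classes with a mixed cocycle and stable roots are good.** -/
theorem tauGood_of_mixed (hAB : A * B = 1) (hBA : B * A = 1) (hp : p.Prime)
    (hfin : ∀ x : S, x ≠ 0 → Finite (S ⧸ Ideal.span {x})) (hc1 : c ≠ 1) {k : ℕ}
    {b : Γ → List Γ → ℤ} (hb : IsMixed k b) (hD : b c [] ≠ 0) (hS : StableRoots c) :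
    TauGood S p A B c := by
  intro l β β' M Z hM _ hZ r
  have hk : 0 < k := by
    rcases Nat.eq_zero_or_pos k with rfl | h
    · exfalso
      apply hD
      rw [← val_pair hb c]
      exact hb.len c _ (by simp)
    · exact h
  -- restrict to the class of `c`
  have hm := final_cls hb c
  have hs : ∀ c' u', ¬ IsConj c c' → clsR c b c' u' = 0 := by
    intro c' u' h
    unfold clsR
    rw [if_neg h]
  have hcl : clsR c b c [] = b c [] := by
    unfold clsR
    rw [if_pos (IsConj.refl c)]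
  rw [← hcl] at hD
  generalize clsR c b = b' at hm hs hD
  set D : ℤ := (∏ j ∈ Finset.Ico 1 k, (2 * (j : ℤ) + 1)) * b' c [] with hDdef
  have hD0 : D ≠ 0 := by
    refine mul_ne_zero (Finset.prod_ne_zero_iff.2 fun j _ => ?_) hD
    positivity
  set X := twist β' B * twist β A with hX
  set X' := twist β B * twist β' A with hX'
  have hAB1 : ∀ σ : Γ →* Matrix (Fin l) (Fin l) S, twist σ A * twist σ B = 1 := fun σ => by
    rw [← map_mul, hAB, map_one]
  have hBA1 : ∀ σ : Γ →* Matrix (Fin l) (Fin l) S, twist σ B * twist σ A = 1 := fun σ => by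
    rw [← map_mul, hBA, map_one]
  have hXX' : X * X' = 1 := by
    rw [hX, hX', mul_assoc, ← mul_assoc (twist β A), hAB1, one_mul, hBA1]
  have hX'X : X' * X = 1 := by
    rw [hX, hX', mul_assoc, ← mul_assoc (twist β' A), hAB1, one_mul, hBA1]
  have key : ∀ s : ℕ, ((p ^ (s + 2) : ℕ) : S) ∣
      ((D : ℤ) : S) * mtr (lin (ind S c)) (Z s) := by
    intro s
    set N : ℕ := p ^ (s + 2) with hN
    have hN0 : 0 < N := pow_pos hp.pos _
    have hV : X ^ (M * p ^ s) * X' ^ (M * p ^ s) = 1 := pow_mul_pow_eq_one _ hXX'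
    refine dvd_of_mixS hm hk c hs hN0 (X ^ (M * p ^ s)) (X' ^ (M * p ^ s)) (Z s) hV (hZ s) ?_
    have hN2 : ((N : S) ^ 2) ≠ 0 := pow_ne_zero _ (Nat.cast_ne_zero.2 hN0.ne')
    set I : Ideal S := Ideal.span {(N : S) ^ 2} with hI
    have hfin' : Finite (S ⧸ I) := hfin _ hN2
    set f : S →+* S ⧸ I := Ideal.Quotient.mk I with hf
    rw [← Ideal.mem_span_singleton, ← Ideal.Quotient.eq_zero_iff_mem, ← hI, ← hf,
      ← mixS_chg f]
    -- the matrices over the product
    set G1 := graph (chg f β) with hG1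
    set G2 := graph (chg f β') with hG2
    set U := mapMatS ℤ G2 B * mapMatS ℤ G1 A with hU
    set U' := mapMatS ℤ G1 B * mapMatS ℤ G2 A with hU'
    have hAB2 : ∀ σ : Γ →* Γ × (Matrix (Fin l) (Fin l) (S ⧸ I))ˣ,
        mapMatS ℤ σ A * mapMatS ℤ σ B = 1 := fun σ => by rw [← map_mul, hAB, map_one]
    have hBA2 : ∀ σ : Γ →* Γ × (Matrix (Fin l) (Fin l) (S ⧸ I))ˣ,
        mapMatS ℤ σ B * mapMatS ℤ σ A = 1 := fun σ => by rw [← map_mul, hBA, map_one]
    have hUU' : U * U' = 1 := by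
      rw [hU, hU', mul_assoc, ← mul_assoc (mapMatS ℤ G1 A), hAB2, one_mul, hBA2]
    have hU'U : U' * U = 1 := by
      rw [hU, hU', mul_assoc, ← mul_assoc (mapMatS ℤ G2 A), hAB2, one_mul, hBA2]
    have e1 : chgM f (X ^ (M * p ^ s)) = mapMatS (S ⧸ I) (MonoidHom.fst Γ _)
        (twist (tau2 Γ l (S ⧸ I)) (U ^ (M * p ^ s))) := by
      rw [map_pow, map_pow, map_pow, hX, map_mul, ← twist_chg, ← twist_chg, hU, map_mul, map_mul,
        hG1, hG2, twist_graph, twist_graph]
    have e2 : chgM f (X' ^ (M * p ^ s)) = mapMatS (S ⧸ I) (MonoidHom.fst Γ _)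
        (twist (tau2 Γ l (S ⧸ I)) (U' ^ (M * p ^ s))) := by
      rw [map_pow, map_pow, map_pow, hX', map_mul, ← twist_chg, ← twist_chg, hU', map_mul, map_mul,
        hG1, hG2, twist_graph, twist_graph]
    rw [e1, e2]
    exact mixS_twist _ _ (pow_mul_pow_eq_one _ hUU') (pow_mul_pow_eq_one _ hU'U) hm hc1 hD hS hk hs
  -- comparison of the quotients
  have hDS : ((D : ℤ) : S) ≠ 0 := Int.cast_ne_zero.2 hD0
  obtain ⟨v, hv⟩ := exists_dvd_of_dvd_mul (p : S) ((D : ℤ) : S) hDS
  have hZ1 : ∀ r, (X ^ M) ^ (p ^ r) = 1 + (p ^ (r + 2)) • Z r := by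
    intro r
    rw [← pow_mul]
    exact hZ r
  obtain ⟨V, hV⟩ := seq_diff p (tau_seq hp hZ1) r (1 + v)
  have h1 : (p : S) ^ (r + 1) ∣ mtr (lin (ind S c)) (Z (r + (1 + v))) := by
    apply hv
    refine dvd_trans ?_ (key (r + (1 + v)))
    rw [Nat.cast_pow]
    exact pow_dvd_pow _ (by omega)
  rw [hV, map_add, map_nsmul, nsmul_eq_mul, Nat.cast_pow] at h1
  exact (dvd_add_left (dvd_mul_right _ _)).mp h1

end main

end Pool.Agent.Lib.MP_8f66f0_al_MixDet
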