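import Pool.Agent.Lib.MP_8f66f0_al_Uni.WordSum
import Pool.Agent.Lib.MP_8f66f0_al_Mixed.Defs
import Pool.Agent.Lib.MP_8f66f0_al_FinQ.LemmaM

/-! # The pairing of a matrix congruent to `1`, with coefficients in a commutative ring -/

set_option autoImplicit false
set_option linter.unusedSectionVars false

namespace Pool.Agent.Lib.MP_8f66f0_al_MixDet

open Pool.Agent.Lib.MP_8f66f0_al_FinQ Pool.Agent.Lib.MP_8f66f0_al_Uni
  Pool.Agent.Lib.MP_8f66f0_al_ChernS Pool.Agent.Lib.MP_8f66f0_al_Mixed

variable {G : Type*} [Group G] {S : Type*} [CommRing S] {ι : Type*} [Fintype ι] [DecidableEq ι]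

section verts

theorem verts_append (l l' : List G) :
    verts (l ++ l') = verts l ++ (verts l').map (l.prod * ·) := by
  unfold verts
  rw [List.length_append, List.range_add, List.map_append, List.map_map, List.map_map]
  congr 1
  · refine List.map_congr_left fun j hj => ?_
    rw [List.mem_range] at hj
    rw [List.take_append_of_le_length hj.le]
  · refine List.map_congr_left fun j hj => ?_
    simp only [Function.comp_apply]
    rw [List.take_length_add_append, List.prod_append]

theorem verts_cons (g : G) (l : List G) : verts (g :: l) = 1 :: (verts l).map (g * ·) := by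
  have h := verts_append [g] l
  rw [List.singleton_append] at h
  rw [h]
  simp [verts]

theorem verts_pair (h g : G) : verts [h, g] = [1, h] := by
  rw [verts_cons, verts_cons]
  simp [verts]

theorem eq_zero_of_one_mem {k : ℕ} {b : G → List G → ℤ} (hb : IsMixed k b) (s t : List G)
    (x c : G) : b c (verts (s ++ 1 :: (t ++ [x]))) = 0 := by
  obtain ⟨y, t', ht⟩ : ∃ y t', t ++ [x] = y :: t' := by
    cases t with
    | nil => exact ⟨x, [], rfl⟩
    | cons y t => exact ⟨y, t ++ [x], rfl⟩
  rw [ht, verts_append, verts_cons, verts_cons]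
  simp only [List.map_cons, one_mul, mul_one]
  exact hb.diag c _ _ _

theorem val_pair {k : ℕ} {b : G → List G → ℤ} (hb : IsMixed k b) (h : G) :
    b h [1, h] = b h [] := by
  have h1 := hb.alternating h [] 1 h []
  have h2 := hb.mixed h 1 [1]
  have h3 : b h [1, 1] = 0 := hb.diag h [] 1 []
  simp only [List.nil_append, mul_one, List.length_singleton, Finset.range_one,
    Finset.sum_singleton, pow_zero, one_mul, List.eraseIdx_zero, List.tail_cons] at h1 h2
  rw [h1, h2, h3]
  ring

end verts

/-- The Chern character over the ring `S`. -/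
noncomputable def chS (m : ℕ) (A B : Matrix ι ι (MonoidAlgebra S G)) (b : G → List G → ℤ) : S :=
  wsum B A (m + 1) fun w => ((b w.prod (verts w) : ℤ) : S)

/-- The pairing over the ring `S`. -/
noncomputable def mixS (k : ℕ) (A B : Matrix ι ι (MonoidAlgebra S G)) (b : G → List G → ℤ) : S :=
  ∑ m ∈ Finset.range k,
    (((m.factorial : ℤ) * ∏ j ∈ Finset.Ico (m + 1) k, (2 * (j : ℤ) + 1) : ℤ) : S) * chS m A B b

section weight

open Classical in
/-- The number of letters different from `1`. -/
noncomputable def wt (w : List G) : ℕ := w.countP fun g => decide (g ≠ 1)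

theorem wt_append (l l' : List G) : wt (l ++ l') = wt l + wt l' := by
  unfold wt
  exact List.countP_append

theorem wt_eq_length {l : List G} (h : ∀ x ∈ l, x ≠ 1) : wt l = l.length := by
  unfold wt
  rw [List.countP_eq_length]
  intro x hx
  simpa using h x hx

/-- The additive monoid generated by the words with coefficients divisible by `M ^ wt`. -/
noncomputable def filt (G : Type*) [Group G] (M : S) :
    AddSubmonoid (MonoidAlgebra S (FreeMonoid G)) :=
  AddSubmonoid.closure {x | ∃ (w : FreeMonoid G) (a : S), M ^ wt w.toList ∣ a ∧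
    x = MonoidAlgebra.single w a}

theorem mul_mem_filt {M : S} {x y : MonoidAlgebra S (FreeMonoid G)} (hx : x ∈ filt G M)
    (hy : y ∈ filt G M) : x * y ∈ filt G M := by
  unfold filt at hx
  refine AddSubmonoid.closure_induction (motive := fun x _ => x * y ∈ filt G M) ?_ ?_ ?_ hx
  · rintro _ ⟨w, a, hw, rfl⟩
    unfold filt at hy
    refine AddSubmonoid.closure_induction
      (motive := fun y _ => MonoidAlgebra.single w a * y ∈ filt G M) ?_ ?_ ?_ hy
    · rintro _ ⟨v, b, hv, rfl⟩
      rw [MonoidAlgebra.single_mul_single]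
      refine AddSubmonoid.subset_closure ⟨w * v, a * b, ?_, rfl⟩
      rw [FreeMonoid.toList_mul, wt_append, pow_add]
      exact mul_dvd_mul hw hv
    · rw [mul_zero]
      exact AddSubmonoid.zero_mem _
    · intro y z _ _ h1 h2
      rw [mul_add]
      exact AddSubmonoid.add_mem _ h1 h2
  · rw [zero_mul]
    exact AddSubmonoid.zero_mem _
  · intro y z _ _ h1 h2
    rw [add_mul]
    exact AddSubmonoid.add_mem _ h1 h2

theorem letter_mem_filt {M : S} (x : MonoidAlgebra S G) (hx : ∀ g, g ≠ 1 → M ∣ x.coeff g) :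
    letter S G x ∈ filt G M := by
  have h1 : x = ∑ g ∈ x.coeff.support, MonoidAlgebra.single g (x.coeff g) :=
    (MonoidAlgebra.sum_coeff_single x).symm
  rw [h1, map_sum]
  refine AddSubmonoid.sum_mem _ fun g _ => ?_
  rw [letter_single]
  refine AddSubmonoid.subset_closure ⟨FreeMonoid.of g, x.coeff g, ?_, rfl⟩
  rw [FreeMonoid.toList_of]
  by_cases hg : g = 1
  · have : wt [g] = 0 := by simp [wt, hg]
    rw [this, pow_zero]
    exact one_dvd _
  · rw [wt_eq_length (by simpa using hg), List.length_singleton, pow_one]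
    exact hx g hg

theorem one_mem_filt {M : S} : (1 : MonoidAlgebra S (FreeMonoid G)) ∈ filt G M := by
  rw [MonoidAlgebra.one_def]
  refine AddSubmonoid.subset_closure ⟨1, 1, ?_, rfl⟩
  rw [FreeMonoid.toList_one]
  simp [wt]

theorem pow_mem_filt {M : S} (A B : Matrix ι ι (MonoidAlgebra S G))
    (hA : ∀ i j g, g ≠ 1 → M ∣ (A i j).coeff g) (hB : ∀ i j g, g ≠ 1 → M ∣ (B i j).coeff g)
    (Q : ℕ) : ∀ i j, ((letM B * letM A) ^ Q) i j ∈ filt G M := by
  induction Q with
  | zero =>
    intro i j
    rw [pow_zero, Matrix.one_apply]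
    split_ifs
    · exact one_mem_filt
    · exact AddSubmonoid.zero_mem _
  | succ Q ih =>
    intro i j
    rw [pow_succ, Matrix.mul_apply]
    refine AddSubmonoid.sum_mem _ fun l _ => mul_mem_filt (ih i l) ?_
    rw [Matrix.mul_apply]
    exact AddSubmonoid.sum_mem _ fun l' _ =>
      mul_mem_filt (letter_mem_filt _ (hB l l')) (letter_mem_filt _ (hA l' j))

theorem lin_dvd_of_mem_filt {M N : S} {F : FreeMonoid G → S}
    (hF : ∀ w : FreeMonoid G, N ∣ M ^ wt w.toList * F w)
    {x : MonoidAlgebra S (FreeMonoid G)} (hx : x ∈ filt G M) : N ∣ lin F x := by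
  unfold filt at hx
  refine AddSubmonoid.closure_induction (motive := fun x _ => N ∣ lin F x) ?_ ?_ ?_ hx
  · rintro _ ⟨w, a, ⟨a', rfl⟩, rfl⟩
    rw [lin_single, mul_right_comm]
    exact dvd_mul_of_dvd_left (hF w) _
  · rw [map_zero]
    exact dvd_zero _
  · intro x y _ _ h1 h2
    rw [map_add]
    exact dvd_add h1 h2

/-- The higher terms. -/
theorem chS_dvd {k m : ℕ} {b : G → List G → ℤ} (hb : IsMixed k b) {M : S}
    (A B : Matrix ι ι (MonoidAlgebra S G))
    (hA : ∀ i j g, g ≠ 1 → M ∣ (A i j).coeff g) (hB : ∀ i j g, g ≠ 1 → M ∣ (B i j).coeff g) :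
    M ^ (2 * m + 1) ∣ chS m A B b := by
  have h1 : chS m A B b = wsum B A (m + 1) fun w =>
      if w.length = 2 * (m + 1) then ((b w.prod (verts w) : ℤ) : S) else 0 := by
    unfold chS
    refine wsum_congr B A (m + 1) fun w hw => ?_
    rw [if_pos hw]
  rw [h1]
  unfold wsum
  refine lin_dvd_of_mem_filt (G := G) (M := M) ?_ ?_
  · intro w
    beta_reduce
    split_ifs with hw
    · by_cases h0 : ∃ x ∈ w.toList.dropLast, x = 1
      · obtain ⟨x, hx, rfl⟩ := h0
        obtain ⟨s, t, hst⟩ := List.append_of_mem hx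
        have hne : w.toList ≠ [] := by
          intro h
          rw [h] at hw
          simp at hw
        have h2 : w.toList = s ++ 1 :: (t ++ [w.toList.getLast hne]) := by
          conv_lhs => rw [← List.dropLast_append_getLast hne, hst]
          simp
        have h3 : b w.toList.prod (verts w.toList) = 0 := by
          conv_lhs => rw [show verts w.toList =
            verts (s ++ 1 :: (t ++ [w.toList.getLast hne])) by rw [← h2]]
          exact eq_zero_of_one_mem hb s t _ _
        rw [h3, Int.cast_zero, mul_zero]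
        exact dvd_zero _
      · push Not at h0
        refine dvd_mul_of_dvd_left (pow_dvd_pow M ?_) _
        have hne : w.toList ≠ [] := by
          intro h
          rw [h] at hw
          simp at hw
        have h2 : wt w.toList = wt (w.toList.dropLast ++ [w.toList.getLast hne]) := by
          rw [List.dropLast_append_getLast hne]
        rw [h2, wt_append, wt_eq_length h0, List.length_dropLast, hw]
        omega
    · rw [mul_zero]
      exact dvd_zero _
  · rw [Matrix.trace]
    refine AddSubmonoid.sum_mem _ fun i _ => ?_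
    rw [Matrix.diag_apply]
    exact pow_mem_filt A B hA hB (m + 1) i i

end weight

section first

variable {k : ℕ} {b : G → List G → ℤ}

/-- The bilinear form of the lowest term. -/
noncomputable def bf (b : G → List G → ℤ) (x y : MonoidAlgebra S G) : S :=
  lin (fun w : FreeMonoid G => ((b w.toList.prod (verts w.toList) : ℤ) : S))
    (letter S G x * letter S G y)

theorem bf_add_left (x x' y : MonoidAlgebra S G) : bf b (x + x') y = bf b x y + bf b x' y := by
  unfold bf
  rw [map_add, add_mul, map_add]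

theorem bf_add_right (x y y' : MonoidAlgebra S G) : bf b x (y + y') = bf b x y + bf b x y' := by
  unfold bf
  rw [map_add, mul_add, map_add]

theorem bf_smul_left (M : ℕ) (x y : MonoidAlgebra S G) : bf b (M • x) y = M * bf b x y := by
  unfold bf
  rw [map_nsmul, smul_mul_assoc, map_nsmul, nsmul_eq_mul]

theorem bf_smul_right (M : ℕ) (x y : MonoidAlgebra S G) : bf b x (M • y) = M * bf b x y := by
  unfold bf
  rw [map_nsmul, mul_smul_comm, map_nsmul, nsmul_eq_mul]

theorem bf_zero_left (y : MonoidAlgebra S G) : bf b 0 y = 0 := by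
  unfold bf
  rw [map_zero, zero_mul, map_zero]

theorem bf_zero_right (y : MonoidAlgebra S G) : bf b y 0 = 0 := by
  unfold bf
  rw [map_zero, mul_zero, map_zero]

theorem bf_single (h g : G) (x y : S) :
    bf b (MonoidAlgebra.single h x) (MonoidAlgebra.single g y) =
      x * y * ((b (h * g) [1, h] : ℤ) : S) := by
  unfold bf
  rw [letter_single, letter_single, MonoidAlgebra.single_mul_single, lin_single,
    FreeMonoid.toList_mul, FreeMonoid.toList_of, FreeMonoid.toList_of, List.singleton_append,
    verts_pair]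
  simp

theorem bf_one_left (hb : IsMixed k b) (y : MonoidAlgebra S G) : bf b 1 y = 0 := by
  induction y using MonoidAlgebra.induction_linear with
  | zero => exact bf_zero_right _
  | add y z hy hz => rw [bf_add_right, hy, hz, add_zero]
  | single g a =>
    rw [MonoidAlgebra.one_def, bf_single]
    have : b (1 * g) [1, 1] = 0 := hb.diag _ [] 1 []
    rw [this, Int.cast_zero, mul_zero]

theorem bf_one_right (hb : IsMixed k b) (c : G) (hsupp : ∀ c' u, ¬ IsConj c c' → b c' u = 0)
    (x : MonoidAlgebra S G) : bf b x 1 = ((b c [] : ℤ) : S) * lin (ind S c) x := by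
  induction x using MonoidAlgebra.induction_linear with
  | zero => rw [bf_zero_left, map_zero, mul_zero]
  | add y z hy hz => rw [bf_add_left, hy, hz, map_add, mul_add]
  | single g a =>
    rw [MonoidAlgebra.one_def, bf_single, lin_single, mul_one, mul_one, val_pair hb]
    unfold ind
    split_ifs with h
    · obtain ⟨x, rfl⟩ := isConj_iff.1 h
      have h1 : b (x * c * x⁻¹) [] = b c [] := hb.equivariant x c []
      rw [h1, mul_one, mul_comm]
    · rw [hsupp g [] h, Int.cast_zero, mul_zero, mul_zero]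

theorem chS_zero_eq (A B : Matrix ι ι (MonoidAlgebra S G)) :
    chS 0 A B b = ∑ i, ∑ j, bf b (B i j) (A j i) := by
  unfold chS wsum
  rw [zero_add, pow_one, Matrix.trace, map_sum]
  refine Finset.sum_congr rfl fun i _ => ?_
  rw [Matrix.diag_apply, Matrix.mul_apply, map_sum]
  rfl

/-- The lowest term modulo `M ^ 2`. -/
theorem chS_zero_cong (hb : IsMixed k b) (c : G) (hsupp : ∀ c' u, ¬ IsConj c c' → b c' u = 0)
    (M : ℕ) (A B Y C : Matrix ι ι (MonoidAlgebra S G)) (hA : A = 1 + M • Y)
    (hB : B = 1 + M • C) :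
    ∃ R : S, chS 0 A B b = M * (((b c [] : ℤ) : S) * mtr (lin (ind S c)) C) + M ^ 2 * R := by
  refine ⟨∑ i, ∑ j, bf b (C i j) (Y j i), ?_⟩
  have h1 : ∀ i j, bf b (B i j) (A j i) =
      (if i = j then M * (((b c [] : ℤ) : S) * lin (ind S c) (C i i)) else 0) +
        M ^ 2 * bf b (C i j) (Y j i) := by
    intro i j
    have hBij : B i j = (1 : Matrix ι ι (MonoidAlgebra S G)) i j + M • C i j := by
      rw [hB]; rfl
    have hAji : A j i = (1 : Matrix ι ι (MonoidAlgebra S G)) j i + M • Y j i := by
      rw [hA]; rfl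
    rw [hBij, hAji, Matrix.one_apply, Matrix.one_apply, bf_add_left, bf_add_right, bf_add_right,
      bf_smul_left, bf_smul_left, bf_smul_right, bf_smul_right]
    by_cases h : i = j
    · subst h
      rw [if_pos rfl, if_pos rfl, bf_one_left hb, bf_one_left hb, bf_one_right hb c hsupp]
      ring
    · rw [if_neg h, if_neg (Ne.symm h), if_neg h, bf_zero_left, bf_zero_left, bf_zero_right]
      ring
  rw [chS_zero_eq, Finset.sum_congr rfl fun i _ => Finset.sum_congr rfl fun j _ => h1 i j,
    Finset.mul_sum]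
  simp_rw [Finset.sum_add_distrib, Finset.mul_sum]
  congr 1
  rw [mtr_apply, Matrix.trace, map_sum, Finset.mul_sum, Finset.mul_sum]
  refine Finset.sum_congr rfl fun i _ => ?_
  rw [Finset.sum_ite_eq]
  simp

/-- The divisibility obtained from the vanishing of the pairing modulo `M ^ 2`. -/
theorem dvd_of_mixS [IsDomain S] [CharZero S] (hb : IsMixed k b) (hk : 0 < k) (c : G)
    (hsupp : ∀ c' u, ¬ IsConj c c' → b c' u = 0) {M : ℕ} (hM : 0 < M)
    (A B Y : Matrix ι ι (MonoidAlgebra S G)) (hAB : A * B = 1) (hA : A = 1 + M • Y)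
    (h0 : (M : S) ^ 2 ∣ mixS k A B b) :
    (M : S) ∣ (((∏ j ∈ Finset.Ico 1 k, (2 * (j : ℤ) + 1)) * b c [] : ℤ) : S) *
      mtr (lin (ind S c)) Y := by
  have hB : B = 1 + M • (-(Y * B)) := by
    have h1 : B + M • (Y * B) = 1 := by
      rw [← hAB, hA, add_mul, one_mul, smul_mul_assoc]
    rw [smul_neg, ← h1]
    abel
  have hC : -(Y * B) = -Y + M • (Y * (Y * B)) := by
    conv_lhs => rw [hB]
    rw [mul_add, mul_one, mul_smul_comm, mul_neg, smul_neg]
    abel
  obtain ⟨R, hR⟩ := chS_zero_cong hb c hsupp M A B Y _ hA hB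
  have hone : ∀ (i j : ι) (g : G), g ≠ 1 →
      ((1 : Matrix ι ι (MonoidAlgebra S G)) i j).coeff g = 0 := by
    intro i j g hg
    rw [Matrix.one_apply]
    split_ifs
    · rw [MonoidAlgebra.one_def, MonoidAlgebra.coeff_single, Finsupp.single_eq_of_ne hg]
    · rw [MonoidAlgebra.coeff_zero, Finsupp.zero_apply]
  have hdiv : ∀ (X Z : Matrix ι ι (MonoidAlgebra S G)), X = 1 + M • Z →
      ∀ i j g, g ≠ 1 → (M : S) ∣ (X i j).coeff g := by
    intro X Z hX i j g hg
    have : X i j = (1 : Matrix ι ι (MonoidAlgebra S G)) i j + M • Z i j := by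
      rw [hX]; rfl
    rw [this, MonoidAlgebra.coeff_add, Finsupp.add_apply, hone i j g hg, zero_add,
      MonoidAlgebra.coeff_smul_apply, nsmul_eq_mul]
    exact dvd_mul_right _ _
  have hsum : mixS k A B b =
      ((∏ j ∈ Finset.Ico 1 k, (2 * (j : ℤ) + 1) : ℤ) : S) * chS 0 A B b +
      ∑ m ∈ Finset.range (k - 1), ((((m + 1).factorial : ℤ) *
        ∏ j ∈ Finset.Ico (m + 1 + 1) k, (2 * (j : ℤ) + 1) : ℤ) : S) * chS (m + 1) A B b := by
    unfold mixS
    obtain ⟨k', rfl⟩ : ∃ k', k = k' + 1 := ⟨k - 1, by omega⟩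
    rw [Finset.sum_range_succ', add_comm]
    simp
  have hhigh : (M : S) ^ 2 ∣ ∑ m ∈ Finset.range (k - 1), ((((m + 1).factorial : ℤ) *
        ∏ j ∈ Finset.Ico (m + 1 + 1) k, (2 * (j : ℤ) + 1) : ℤ) : S) * chS (m + 1) A B b := by
    refine Finset.dvd_sum fun m _ => dvd_mul_of_dvd_right ?_ _
    exact (pow_dvd_pow _ (by omega)).trans
      (chS_dvd hb A B (hdiv A Y hA) (hdiv B _ hB))
  obtain ⟨T, hT⟩ := h0
  rw [hT, hR, hC, map_add, map_neg, map_nsmul, nsmul_eq_mul] at hsum
  obtain ⟨S', hS⟩ := hhigh
  rw [hS] at hsum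
  rw [Int.cast_mul]
  set D : S := ((∏ j ∈ Finset.Ico 1 k, (2 * (j : ℤ) + 1) : ℤ) : S)
  refine ⟨D * (((b c [] : ℤ) : S) * mtr (lin (ind S c)) (Y * (Y * B))) + D * R + S' - T, ?_⟩
  have hM0 : (M : S) ≠ 0 := by exact_mod_cast hM.ne'
  apply mul_left_cancel₀ hM0
  linear_combination hsum

end first

end Pool.Agent.Lib.MP_8f66f0_al_MixDet
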